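import Pool.Agent.H30.FCB.StE
import Pool.Agent.H30.FCB.StC
import Pool.Agent.H30.FCB.Basic

/-! FCB, module XGRA -/

open MvPolynomial

namespace FCB

namespace XGRA

theorem mk_monomial (n : CX →₀ ℕ) (c : ℂ) :
    (Ideal.Quotient.mk (Ideal.span {FX}) (monomial n c) : RX) = c • DX.mono (fun j => n j) := by
  have h : monomial n c = c • (monomial n (1 : ℂ) : MvPolynomial CX ℂ) := by
    rw [smul_monomial, smul_eq_mul, mul_one]
  rw [h]
  show Ideal.Quotient.mkₐ ℂ (Ideal.span {FX}) (c • (monomial n (1 : ℂ) : MvPolynomial CX ℂ)) = _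
  rw [map_smul]
  congr 1
  show Ideal.Quotient.mk (Ideal.span {FX}) (monomial n (1 : ℂ)) = _
  rw [monomial_eq, C_1, one_mul, Finsupp.prod_fintype _ _ (fun i => pow_zero _), map_prod]
  unfold Cox.mono
  refine Finset.prod_congr rfl fun j _ => ?_
  rw [map_pow]
  rfl

theorem top (a : RX) : ∃ s : (Fin 5 → ℤ) →₀ RX, (∀ g, s g ∈ DX.gr g) ∧
    (s.sum fun _ x => x) = a := by
  classical
  obtain ⟨p, rfl⟩ := Ideal.Quotient.mk_surjective a
  induction p using MvPolynomial.induction_on' with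
  | monomial n c =>
    refine ⟨Finsupp.single (DX.wt (fun j => n j)) (Ideal.Quotient.mk _ (monomial n c)), ?_, ?_⟩
    · intro g
      rw [Finsupp.single_apply]
      split_ifs with h
      · rw [mk_monomial, ← h]
        exact Submodule.smul_mem _ _ (DX.mono_mem _)
      · exact Submodule.zero_mem _
    · rw [Finsupp.sum_single_index rfl]
  | add p q hp hq =>
    obtain ⟨s, hs, hs'⟩ := hp
    obtain ⟨t, ht, ht'⟩ := hq
    refine ⟨s + t, fun g => Submodule.add_mem _ (hs g) (ht g), ?_⟩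
    rw [Finsupp.sum_add_index' (fun _ => rfl) (fun _ _ _ => rfl), hs', ht', map_add]

/-- the coaction on the polynomial ring -/
noncomputable def coP : MvPolynomial CX ℂ →ₐ[ℂ] AddMonoidAlgebra RX (Fin 5 → ℤ) :=
  aeval fun j => AddMonoidAlgebra.single (degX j) (DX.X j)

theorem coP_X (j : CX) : coP (X j) = AddMonoidAlgebra.single (degX j) (DX.X j) := aeval_X _ _

theorem genFX {R : Type*} [CommRing R] (f : MvPolynomial CX ℂ →+* R) :
    f FX = f (X .x) ^ 2 + (2 * f (X .z) * f (X .a) * f (X .b) +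
    (f (X (.y 0)) * f (X (.y 1)) - f (X (.y 2)) ^ 2) *
      (f (X .w) ^ 2 * f (X .a) ^ 2 + f (X .v) ^ 2 * f (X .b) ^ 2)) := by
  simp only [FX, GX, eP, map_add, map_mul, map_pow, map_sub, map_ofNat]

theorem genQ (F : MvPolynomial CX ℂ) (h : F = FX) (m : MvPolynomial CX ℂ →+*
    (MvPolynomial CX ℂ ⧸ Ideal.span {F})) (hm : m = Ideal.Quotient.mk (Ideal.span {F})) :
    m (X .x) ^ 2 + (2 * m (X .z) * m (X .a) * m (X .b) +
    (m (X (.y 0)) * m (X (.y 1)) - m (X (.y 2)) ^ 2) *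
      (m (X .w) ^ 2 * m (X .a) ^ 2 + m (X .v) ^ 2 * m (X .b) ^ 2)) = 0 := by
  have h0 : m FX = 0 := by
    rw [← h, hm]
    exact Ideal.Quotient.eq_zero_iff_mem.mpr (Ideal.mem_span_singleton_self F)
  rw [← genFX]
  exact h0

theorem mk_FX : DX.X .x ^ 2 + (2 * DX.X .z * DX.X .a * DX.X .b +
    (DX.X (.y 0) * DX.X (.y 1) - DX.X (.y 2) ^ 2) *
      (DX.X .w ^ 2 * DX.X .a ^ 2 + DX.X .v ^ 2 * DX.X .b ^ 2)) = 0 :=
  genQ FX rfl (Ideal.Quotient.mk (Ideal.span {FX})) rfl

theorem sgl_mul (g h : Fin 5 → ℤ) (a b : RX) : AddMonoidAlgebra.single g a *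
    AddMonoidAlgebra.single h b = AddMonoidAlgebra.single (g + h) (a * b) :=
  AddMonoidAlgebra.single_mul_single g h a b

theorem coP_FX : coP FX = 0 := by
  have e1 : coP FX = coP (X .x) ^ 2 + ((coP (X .z) * coP (X .a) * coP (X .b) +
      coP (X .z) * coP (X .a) * coP (X .b)) +
      (coP (X (.y 0)) * coP (X (.y 1)) - coP (X (.y 2)) ^ 2) *
      (coP (X .w) ^ 2 * coP (X .a) ^ 2 + coP (X .v) ^ 2 * coP (X .b) ^ 2)) := by
    have h := genFX (R := AddMonoidAlgebra RX (Fin 5 → ℤ)) coP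
    have h2 : (2 : AddMonoidAlgebra RX (Fin 5 → ℤ)) * coP (X .z) * coP (X .a) * coP (X .b) =
      coP (X .z) * coP (X .a) * coP (X .b) + coP (X .z) * coP (X .a) * coP (X .b) := by
      rw [mul_assoc, mul_assoc, two_mul, ← mul_assoc]
    rw [← h2]
    exact h
  rw [e1]
  simp only [coP_X, pow_two, sgl_mul]
  have g1 : degX .x + degX .x = ![0, 0, 0, 0, 2] := by
    funext i; fin_cases i <;> rfl
  have g2 : degX .z + degX .a + degX .b = ![0, 0, 0, 0, 2] := by
    funext i; fin_cases i <;> rfl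
  have g3 : degX (.y 0) + degX (.y 1) = ![-4, 2, 0, 0, 0] := by
    funext i; fin_cases i <;> rfl
  have g4 : degX (.y 2) + degX (.y 2) = ![-4, 2, 0, 0, 0] := by
    funext i; fin_cases i <;> rfl
  have g5 : degX .w + degX .w + (degX .a + degX .a) = ![4, -2, 0, 0, 2] := by
    funext i; fin_cases i <;> rfl
  have g6 : degX .v + degX .v + (degX .b + degX .b) = ![4, -2, 0, 0, 2] := by
    funext i; fin_cases i <;> rfl
  rw [g1, g2, g3, g4, g5, g6, ← AddMonoidAlgebra.single_sub, ← AddMonoidAlgebra.single_add,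
    ← AddMonoidAlgebra.single_add, sgl_mul]
  have g7 : (![-4, 2, 0, 0, 0] + ![4, -2, 0, 0, 2] : Fin 5 → ℤ) = ![0, 0, 0, 0, 2] := by
    funext i; fin_cases i <;> rfl
  rw [g7, ← AddMonoidAlgebra.single_add, ← AddMonoidAlgebra.single_add]
  have := mk_FX
  simp only [pow_two] at this
  have h5 : DX.X .x * DX.X .x + (DX.X .z * DX.X .a * DX.X .b + DX.X .z * DX.X .a * DX.X .b +
    (DX.X (.y 0) * DX.X (.y 1) - DX.X (.y 2) * DX.X (.y 2)) *
      (DX.X .w * DX.X .w * (DX.X .a * DX.X .a) + DX.X .v * DX.X .v * (DX.X .b * DX.X .b))) = 0 := by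
    rw [← this]; ring
  rw [h5]
  exact AddMonoidAlgebra.single_zero _

/-- the coaction -/
noncomputable def co : RX →ₐ[ℂ] AddMonoidAlgebra RX (Fin 5 → ℤ) :=
  Ideal.Quotient.liftₐ (Ideal.span {FX}) coP (by
    intro a ha
    rw [Ideal.mem_span_singleton] at ha
    obtain ⟨b, rfl⟩ := ha
    rw [map_mul, coP_FX, zero_mul])

theorem co_X (j : CX) : co (DX.X j) = AddMonoidAlgebra.single (degX j) (DX.X j) := by
  show Ideal.Quotient.liftₐ (Ideal.span {FX}) coP _ (Ideal.Quotient.mk _ (X j)) = _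
  exact coP_X j

theorem co_mono (n : CX → ℕ) : co (DX.mono n) = AddMonoidAlgebra.single (DX.wt n) (DX.mono n) := by
  unfold Cox.mono Cox.wt
  rw [map_prod]
  have h : ∀ s : Finset CX, ∏ j ∈ s, co (DX.X j ^ n j) =
      AddMonoidAlgebra.single (∑ j ∈ s, (n j : ℤ) • degX j) (∏ j ∈ s, DX.X j ^ n j) := by
    classical
    intro s
    induction s using Finset.induction_on with
    | empty => rfl
    | insert i s ha ih =>
      rw [Finset.prod_insert ha, Finset.prod_insert ha, Finset.sum_insert ha, ih, map_pow, co_X,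
        AddMonoidAlgebra.single_pow, sgl_mul, natCast_zsmul]
  exact h Finset.univ

theorem co_gr {g : Fin 5 → ℤ} {a : RX} (ha : a ∈ DX.gr g) :
    co a = AddMonoidAlgebra.single g a := by
  unfold Cox.gr at ha
  induction ha using Submodule.span_induction with
  | mem x hx =>
    obtain ⟨n, hn, rfl⟩ := hx
    rw [co_mono]
    have : DX.wt n = g := hn
    rw [this]
  | zero => rw [map_zero]; exact (AddMonoidAlgebra.single_zero _).symm
  | add x y _ _ hx hy => rw [map_add, hx, hy, AddMonoidAlgebra.single_add]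
  | smul c x _ hx =>
    rw [map_smul, hx]
    exact AddMonoidAlgebra.smul_single c g x

end XGRA

theorem xgra : S_XGRA := by
  refine ⟨XGRA.top, fun s hs h0 => ?_⟩
  have h1 := congrArg XGRA.co h0
  rw [map_zero, map_finsuppSum] at h1
  have h2 : (s.sum fun g x => XGRA.co x) = AddMonoidAlgebra.ofCoeff s := by
    have h3 : (s.sum fun g x => XGRA.co x) = s.sum fun g x => AddMonoidAlgebra.single g x :=
      Finsupp.sum_congr fun g _ => XGRA.co_gr (hs g)
    rw [h3]
    apply AddMonoidAlgebra.coeff_injective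
    rw [AddMonoidAlgebra.coeff_finsuppSum]
    simp only [AddMonoidAlgebra.coeff_single]
    exact Finsupp.sum_single s
  rw [h2] at h1
  exact AddMonoidAlgebra.ofCoeff_eq_zero.mp h1

end FCB
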