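import Pool.Agent.H30.FCB.StC
import Pool.Agent.H30.FCB.Basic

/-! FCB, module XNAS -/

open MvPolynomial

namespace FCB

namespace XNAS

/-- the point with one nonzero coordinate -/
noncomputable def pt (j : CX) : CX → ℂ := fun k => if k = j then 1 else 0

theorem eval_FX (j : CX) (hj : j ≠ CX.x) : eval (pt j) FX = 0 := by
  simp only [FX, GX, eP, map_add, map_mul, map_pow, map_sub, eval_X, pt, map_ofNat]
  cases j <;> simp_all

/-- evaluation at the point -/
noncomputable def ev (j : CX) (hj : j ≠ CX.x) : RX →+* ℂ :=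
  Ideal.Quotient.lift (Ideal.span {FX}) (eval (pt j)) (by
    intro a ha
    rw [Ideal.mem_span_singleton] at ha
    obtain ⟨b, rfl⟩ := ha
    rw [map_mul, eval_FX j hj, zero_mul])

theorem ev_X (j : CX) (hj : j ≠ CX.x) (k : CX) : ev j hj (DX.X k) = pt j k := by
  show Ideal.Quotient.lift (Ideal.span {FX}) (eval (pt j)) _ (Ideal.Quotient.mk _ (X k)) = _
  rw [Ideal.Quotient.lift_mk, eval_X]

theorem not_dvd {i j : CX} (hij : i ≠ j) (hj : j ≠ CX.x) : ¬ DX.X i ∣ DX.X j := by
  rintro ⟨c, hc⟩
  have h := congrArg (ev j hj) hc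
  rw [map_mul, ev_X, ev_X] at h
  simp only [pt, if_true, if_neg hij, zero_mul] at h
  exact one_ne_zero h

end XNAS

theorem xnas : S_XNAS := by
  intro i j hij h
  by_cases hj : j = CX.x
  · refine XNAS.not_dvd hij.symm ?_ h.symm.dvd
    rintro rfl
    exact hij hj.symm
  · exact XNAS.not_dvd hij hj h.dvd

end FCB
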