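import Pool.Agent.H84.FCB.XNAS
import Pool.Agent.H84.FCB.XGRA

/-! FCB, module XUFD -/

open MvPolynomial

namespace FCB

namespace XUFD

/-- the coordinates other than `z` -/
abbrev PP : Type := MvPolynomial {j : CX // j ≠ CX.z} ℂ

/-- the natural map of the polynomial ring without `z` -/
noncomputable def io : PP →ₐ[ℂ] RX :=
  (Ideal.Quotient.mkₐ ℂ (Ideal.span {FX})).comp (rename Subtype.val)

theorem io_X (j : {j : CX // j ≠ CX.z}) : io (X j) = DX.X j.1 := by
  show Ideal.Quotient.mkₐ ℂ (Ideal.span {FX}) (rename Subtype.val (X j)) = _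
  rw [rename_X]
  rfl

/-- the variables in `PP` -/
noncomputable def va : PP := X ⟨.a, by decide⟩
noncomputable def vb : PP := X ⟨.b, by decide⟩

theorem io_va : io va = DX.X .a := io_X _
theorem io_vb : io vb = DX.X .b := io_X _

/-- the numerator of `z` -/
noncomputable def nz : PP := -(X ⟨.x, by decide⟩ ^ 2 +
  (X ⟨.y 0, by decide⟩ * X ⟨.y 1, by decide⟩ - X ⟨.y 2, by decide⟩ ^ 2) *
    (X ⟨.w, by decide⟩ ^ 2 * X ⟨.a, by decide⟩ ^ 2 + X ⟨.v, by decide⟩ ^ 2 * X ⟨.b, by decide⟩ ^ 2))

theorem io_nz : (va * vb : PP) ≠ 0 ∧ 2 * (io (va * vb) * DX.X .z) = io nz := by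
  refine ⟨mul_ne_zero (X_ne_zero _) (X_ne_zero _), ?_⟩
  rw [map_mul, io_va, io_vb, nz]
  simp only [map_neg, map_add, map_mul, map_pow, map_sub, io_X]
  linear_combination XGRA.mk_FX

/-- `io` is injective -/
theorem io_inj : Function.Injective io := by
  rw [injective_iff_map_eq_zero]
  intro q hq
  let K := FractionRing PP
  have hinj : Function.Injective (algebraMap PP K) := IsFractionRing.injective PP K
  let pt : CX → K := fun j => if h : j ≠ CX.z then algebraMap PP K (X ⟨j, h⟩) else
    algebraMap PP K nz / (2 * algebraMap PP K (va * vb))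
  have hF : aeval pt FX = 0 := by
    have h1 : algebraMap PP K (va * vb) ≠ 0 := (map_ne_zero_iff _ hinj).mpr io_nz.1
    have h2 : pt .z * (2 * algebraMap PP K (va * vb)) = algebraMap PP K nz := by
      have : pt .z = algebraMap PP K nz / (2 * algebraMap PP K (va * vb)) := by
        simp [pt]
      rw [this]
      exact div_mul_cancel₀ _ (mul_ne_zero two_ne_zero h1)
    have h3 : aeval pt FX = pt .x ^ 2 + (2 * pt .z * pt .a * pt .b +
        (pt (.y 0) * pt (.y 1) - pt (.y 2) ^ 2) *
          (pt .w ^ 2 * pt .a ^ 2 + pt .v ^ 2 * pt .b ^ 2)) := by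
      simp only [FX, GX, eP, map_add, map_mul, map_pow, map_sub, aeval_X, map_ofNat]
    have g : ∀ (j : CX) (h : j ≠ CX.z), pt j = algebraMap PP K (X ⟨j, h⟩) := by
      intro j h
      simp only [pt, dif_pos h]
    rw [h3]
    rw [nz] at h2
    simp only [map_neg, map_add, map_mul, map_pow, map_sub, va, vb] at h2
    rw [← g .x, ← g .a, ← g .b, ← g (.y 0), ← g (.y 1), ← g (.y 2), ← g .w, ← g .v] at h2
    linear_combination h2
  have h4 : rename Subtype.val q ∈ Ideal.span {FX} := by
    rw [← Ideal.Quotient.eq_zero_iff_mem]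
    exact hq
  rw [Ideal.mem_span_singleton] at h4
  obtain ⟨h, hh⟩ := h4
  have h5 := congrArg (aeval pt) hh
  rw [map_mul, hF, zero_mul, aeval_rename] at h5
  have h6 : aeval (pt ∘ Subtype.val) q = algebraMap PP K q := by
    have h7 : (pt ∘ Subtype.val : {j : CX // j ≠ CX.z} → K) = fun j => algebraMap PP K (X j) := by
      funext j
      simp only [Function.comp_apply, pt, dif_pos j.2]
    rw [h7]
    have h8 : (aeval fun j => algebraMap PP K (X j) : PP →ₐ[ℂ] K) =
        IsScalarTower.toAlgHom ℂ PP K := by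
      apply MvPolynomial.algHom_ext
      intro j
      rw [aeval_X]
      rfl
    rw [h8]
    rfl
  rw [h6] at h5
  exact hinj (h5.trans (map_zero _).symm)

theorem clearAux {R : Type} [CommRing R] [Algebra ℂ R] (mk : MvPolynomial CX ℂ →ₐ[ℂ] R)
    (i : PP →ₐ[ℂ] R) (hi : ∀ j : {j : CX // j ≠ CX.z}, i (X j) = mk (X j.1))
    (m n : PP) (hn : 2 * (i m * mk (X .z)) = i n) (p : MvPolynomial CX ℂ) :
    ∃ (N : ℕ) (q : PP), i m ^ N * mk p = i q := by
  induction p using MvPolynomial.induction_on with
  | C c =>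
    refine ⟨0, C c, ?_⟩
    rw [pow_zero, one_mul]
    exact (mk.commutes c).trans (i.commutes c).symm
  | add p q hp hq =>
    obtain ⟨N, p', hp⟩ := hp
    obtain ⟨M, q', hq⟩ := hq
    refine ⟨N + M, m ^ M * p' + m ^ N * q', ?_⟩
    rw [map_add, map_add, map_mul, map_mul, map_pow, map_pow, ← hp, ← hq, pow_add]
    ring
  | mul_X p j hp =>
    obtain ⟨N, p', hp⟩ := hp
    by_cases hj : j = CX.z
    · subst hj
      refine ⟨N + 1, C (1 / 2) * (p' * n), ?_⟩
      rw [map_mul, map_mul, map_mul, ← hp, ← hn, pow_succ]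
      have h2 : i (C (1 / 2)) * 2 = 1 := by
        have h3 : (2 : R) = i (C 2) := by
          rw [show (C 2 : PP) = 2 from map_ofNat C 2, map_ofNat]
        rw [h3, ← map_mul, ← C_mul, show (1 / 2 * 2 : ℂ) = 1 by norm_num, C_1, map_one]
      linear_combination (-(i m ^ N * mk p * (i m * mk (X .z)))) * h2
    · refine ⟨N, p' * X ⟨j, hj⟩, ?_⟩
      rw [map_mul, map_mul, ← hp, hi]
      ring

/-- every element is a polynomial without `z` after multiplication by a power of `ab` -/
theorem clear (r : RX) : ∃ (N : ℕ) (q : PP), io (va * vb) ^ N * r = io q := by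
  obtain ⟨p, rfl⟩ := Ideal.Quotient.mk_surjective r
  exact clearAux (Ideal.Quotient.mkₐ ℂ (Ideal.span {FX})) io io_X (va * vb) nz io_nz.2 p

/-- Nagata's criterion with two primes -/
theorem nagata {R P : Type} [CommRing R] [IsDomain R] [IsNoetherianRing R] [CommRing P]
    [IsDomain P] [UniqueFactorizationMonoid P] (i : P →+* R) (hi : Function.Injective i) (a b : P)
    (ha : Prime (i a)) (hb : Prime (i b)) (hab : ¬ i b ∣ i a)
    (clear : ∀ r, ∃ (N : ℕ) (q : P), i (a * b) ^ N * r = i q) : UniqueFactorizationMonoid R := by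
  let S1 := Localization.Away (i a)
  rw [UniqueFactorizationMonoid.iff_of_isLocalizationAway_of_prime ha S1]
  have d1 : IsDomain S1 := IsLocalization.Away.isDomain S1 ha.ne_zero
  have n1 : IsNoetherianRing S1 :=
    IsLocalization.isNoetherianRing (Submonoid.powers (i a)) S1 inferInstance
  have i1 : Function.Injective (algebraMap R S1) :=
    IsLocalization.injective S1 (powers_le_nonZeroDivisors_of_noZeroDivisors ha.ne_zero)
  have hbS : Prime (algebraMap R S1 (i b)) := by
    have hp : (Ideal.span {i b}).IsPrime := (Ideal.span_singleton_prime hb.ne_zero).mpr hb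
    have hd : Disjoint (Submonoid.powers (i a) : Set R) (Ideal.span {i b} : Ideal R) := by
      rw [Ideal.disjoint_powers_iff_notMem_of_isPrime]
      rwa [Ideal.mem_span_singleton]
    have h := IsLocalization.isPrime_of_isPrime_disjoint (Submonoid.powers (i a)) S1 _ hp hd
    rw [Ideal.map_span, Set.image_singleton] at h
    exact (Ideal.span_singleton_prime ((map_ne_zero_iff _ i1).mpr hb.ne_zero)).mp h
  let S2 := Localization.Away (algebraMap R S1 (i b))
  rw [UniqueFactorizationMonoid.iff_of_isLocalizationAway_of_prime hbS S2]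
  have d2 : IsDomain S2 := IsLocalization.Away.isDomain S2 hbS.ne_zero
  have i2 : Function.Injective (algebraMap S1 S2) :=
    IsLocalization.injective S2 (powers_le_nonZeroDivisors_of_noZeroDivisors hbS.ne_zero)
  let f : R →+* S2 := (algebraMap S1 S2).comp (algebraMap R S1)
  let j : P →+* S2 := f.comp i
  let : Algebra P S2 := j.toAlgebra
  have inj : Function.Injective j := i2.comp (i1.comp hi)
  have hu : IsUnit (j (a * b)) := by
    rw [map_mul]
    refine IsUnit.mul ?_ ?_
    · exact (IsLocalization.Away.algebraMap_isUnit (S := S1) (i a)).map (algebraMap S1 S2)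
    · exact IsLocalization.Away.algebraMap_isUnit (S := S2) (algebraMap R S1 (i b))
  have : IsLocalization (Submonoid.powers (a * b)) S2 := by
    rw [isLocalization_iff]
    refine ⟨?_, ?_, ?_⟩
    · rintro ⟨_, n, rfl⟩
      show IsUnit (j ((a * b) ^ n))
      rw [map_pow]
      exact hu.pow n
    · intro z
      obtain ⟨⟨z1, ⟨_, n, rfl⟩⟩, h1⟩ :=
        IsLocalization.surj (Submonoid.powers (algebraMap R S1 (i b))) z
      obtain ⟨⟨r, ⟨_, m, rfl⟩⟩, h2⟩ := IsLocalization.surj (Submonoid.powers (i a)) z1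
      obtain ⟨N, q, h3⟩ := clear r
      refine ⟨(q * a ^ n * b ^ m, ⟨(a * b) ^ (n + m + N), _, rfl⟩), ?_⟩
      show z * j ((a * b) ^ (n + m + N)) = j (q * a ^ n * b ^ m)
      have h1' : z * j b ^ n = algebraMap S1 S2 z1 := by
        have h4 : z * algebraMap S1 S2 (algebraMap R S1 (i b) ^ n) = algebraMap S1 S2 z1 := h1
        rw [map_pow] at h4
        exact h4
      have h2' : algebraMap S1 S2 z1 * j a ^ m = f r := by
        have h4 : z1 * algebraMap R S1 (i a ^ m) = algebraMap R S1 r := h2
        have h5 := congrArg (algebraMap S1 S2) h4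
        rw [map_mul, map_pow, map_pow] at h5
        exact h5
      have h3' : j (a * b) ^ N * f r = j q := by
        have h5 := congrArg f h3
        rw [map_mul, map_pow] at h5
        exact h5
      rw [map_mul] at h3'
      rw [map_pow, map_mul, map_mul, map_mul, map_pow, map_pow, ← h3', ← h2', ← h1']
      ring
    · intro x y h
      exact ⟨1, by rw [inj h]⟩
  exact UniqueFactorizationMonoid.of_isLocalization (Submonoid.powers (a * b)) S2

end XUFD

theorem xufd (h : S_XPRI) : S_XUFD := by
  intro _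
  refine XUFD.nagata (XUFD.io : XUFD.PP →+* RX) XUFD.io_inj XUFD.va XUFD.vb ?_ ?_ ?_ XUFD.clear
  · exact XUFD.io_va.symm ▸ h .a
  · exact XUFD.io_vb.symm ▸ h .b
  · intro hd
    refine XNAS.not_dvd (i := .b) (j := .a) (by decide) (by decide) ?_
    rw [← XUFD.io_va, ← XUFD.io_vb]
    exact hd

end FCB
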