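import Pool.Agent.H30.FCB.StC
import Pool.Agent.H30.FCB.Basic

/-! FCB, module SQF -/

open MvPolynomial
namespace FCB
namespace SQF

attribute [local simp] MvPolynomial.optionEquivLeft_X_none in
theorem relPrime {ι : Type} (x : ι) (A B : MvPolynomial ι ℂ) (hA : x ∉ A.vars) (hB : x ∉ B.vars)
    (hA0 : A ≠ 0) : IsRelPrime A (X x ^ 2 + B) := by
  classical
  let S := MvPolynomial { j // j ≠ x } ℂ
  let e : MvPolynomial ι ℂ ≃ₐ[ℂ] Polynomial S :=
    (renameEquiv ℂ (Equiv.optionSubtypeNe x).symm).trans (optionEquivLeft ℂ _)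
  have he : e.symm.toAlgHom.comp Polynomial.CAlgHom = rename (↑) := by ext; simp [e, S]
  obtain ⟨A', hA'⟩ : A ∈ (e.symm.toAlgHom.comp Polynomial.CAlgHom).range :=
    he ▸ exists_rename_eq_of_vars_subset_range _ _ Subtype.val_injective (by simpa [Set.subset_def])
  obtain ⟨B', hB'⟩ : B ∈ (e.symm.toAlgHom.comp Polynomial.CAlgHom).range :=
    he ▸ exists_rename_eq_of_vars_subset_range _ _ Subtype.val_injective (by simpa [Set.subset_def])
  have eA : e A = Polynomial.C A' := by
    rw [← hA']
    exact e.apply_symm_apply (Polynomial.C A')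
  have eB : e B = Polynomial.C B' := by
    rw [← hB']
    exact e.apply_symm_apply (Polynomial.C B')
  have eX : e (X x) = Polynomial.X := by simp [e, S]
  intro d h1 h2
  have h1' : e d ∣ Polynomial.C A' := eA ▸ map_dvd e h1
  have h2' : e d ∣ Polynomial.X ^ 2 + Polynomial.C B' := by
    have := map_dvd e h2
    rwa [map_add, map_pow, eX, eB] at this
  have hC : Polynomial.C A' ≠ 0 := by
    rw [← eA]
    exact (map_ne_zero_iff e e.injective).mpr hA0
  have hdeg : (e d).natDegree = 0 := by
    have := Polynomial.natDegree_le_of_dvd h1' hC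
    rw [Polynomial.natDegree_C] at this
    omega
  obtain ⟨d', hd'⟩ : ∃ d', e d = Polynomial.C d' := ⟨_, Polynomial.eq_C_of_natDegree_eq_zero hdeg⟩
  rw [hd', Polynomial.C_dvd_iff_dvd_coeff] at h2'
  have h3 := h2' 2
  rw [Polynomial.coeff_add, Polynomial.coeff_X_pow_self, Polynomial.coeff_C,
    if_neg (by norm_num), add_zero] at h3
  have h4 : IsUnit (e d) := by
    rw [hd']
    exact (isUnit_of_dvd_one h3).map Polynomial.C
  exact (MulEquiv.isUnit_map e.toMulEquiv).mp h4

end SQF

theorem sqf : S_SQF := by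
  intro ι _ x z A B hxz hA hzA hB hzB hA0
  have h1 := SQF.relPrime x A B hA hB hA0
  have hz : z ∉ (X x ^ 2 + B : MvPolynomial ι ℂ).vars := by
    classical
    intro hz
    have h2 := vars_add_subset _ _ hz
    rw [Finset.mem_union] at h2
    rcases h2 with h2 | h2
    · have h3 := vars_pow _ _ h2
      rw [vars_X, Finset.mem_singleton] at h3
      exact hxz h3.symm
    · exact hzB h2
  have h2 := irreducible_mul_X_add A (X x ^ 2 + B) z hA0 hzA hz h1
  have h3 : X x ^ 2 + (A * X z + B) = A * X z + (X x ^ 2 + B) := by ring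
  rw [h3]
  exact h2.prime

end FCB
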